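import Pool.Agent.H40.Peel.Main

/-!
The minimum-degree peeling algorithm succeeds with probability tending to one on the planted
clique model `G(n, 1/2, k)` with `k = ⌊√n⌋`, whatever the tie-breaking rule.
-/

namespace Pool.Agent.Results.MP_350a25_pr.PeelingSucceedsAtSqrt

open Pool.Agent.H40.Peel Filter

/-- The success probability when the tie-breaking rule is itself drawn at random, with
distribution `μ`, independently of the graph and of the planted set. -/
noncomputable def succProbRand (n k : ℕ) (μ : PMF (TieRule n)) : ℝ :=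
  ∑' R : TieRule n, (μ R).toReal * succProb n k R

lemma succProb_nonneg (n k : ℕ) (R : TieRule n) : 0 ≤ succProb n k R := by
  unfold succProb
  positivity

lemma succProb_le_one (n k : ℕ) (R : TieRule n) : succProb n k R ≤ 1 := by
  classical
  unfold succProb
  apply div_le_one_of_le₀ _ (Nat.cast_nonneg _)
  norm_cast
  apply Finset.card_le_card
  intro p hp
  rw [Finset.mem_filter] at hp ⊢
  exact ⟨hp.1, hp.2.1⟩

theorem result :
    (∀ n : ℕ, (Nat.sqrt n : ℝ) ≤ √(n : ℝ)) ∧
    ∀ ε : ℝ, 0 < ε → ∀ᶠ n : ℕ in atTop, ∀ μ : PMF (TieRule n),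
      1 - ε ≤ succProbRand n (Nat.sqrt n) μ := by
  refine ⟨fun n => Real.nat_sqrt_le_real_sqrt, fun ε hε => ?_⟩
  filter_upwards [main ε hε] with n hn μ
  have hsum : Summable fun R : TieRule n => (μ R).toReal :=
    ENNReal.summable_toReal (by rw [μ.tsum_coe]; exact ENNReal.one_ne_top)
  have htot : ∑' R : TieRule n, (μ R).toReal = 1 := by
    rw [← ENNReal.tsum_toReal_eq (fun R => μ.apply_ne_top R), μ.tsum_coe, ENNReal.toReal_one]
  have hsum2 : Summable fun R : TieRule n => (μ R).toReal * succProb n (Nat.sqrt n) R := by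
    refine Summable.of_nonneg_of_le (fun R => ?_) (fun R => ?_) hsum
    · exact mul_nonneg ENNReal.toReal_nonneg (succProb_nonneg _ _ _)
    · exact mul_le_of_le_one_right ENNReal.toReal_nonneg (succProb_le_one _ _ _)
  unfold succProbRand
  calc 1 - ε = ∑' R : TieRule n, (μ R).toReal * (1 - ε) := by
        rw [tsum_mul_right, htot, one_mul]
    _ ≤ _ := by
        refine (hsum.mul_right (1 - ε)).tsum_le_tsum (fun R => ?_) hsum2
        exact mul_le_mul_of_nonneg_left (hn R) ENNReal.toReal_nonneg

end Pool.Agent.Results.MP_350a25_pr.PeelingSucceedsAtSqrt
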